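import Mathlib

namespace Pool.Agent.Results.MP_c9219e_nt.Odd

def ends (m n : ℕ) : Set ℕ :=
  {s | ∃ l : List ℕ, l.Pairwise (· ≤ ·) ∧ (∃ R, l.prod = R ^ m) ∧ (∀ x, l.count x ≤ m - 1) ∧
    l.head? = some n ∧ l.getLast? = some s}

lemma mk (m n R : ℕ) (M : Multiset ℕ) (hn : n ∈ M) (h : ∀ x ∈ M, n ≤ x ∧ x < 2 * n)
    (hp : M.prod = R ^ m) (hc : ∀ x, M.count x ≤ m - 1) : ¬ IsLeast (ends m n) (2 * n) := by
  intro hl
  obtain ⟨l, rfl, hs⟩ : ∃ l : List ℕ, (l : Multiset ℕ) = M ∧ l.Pairwise (· ≤ ·) :=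
    ⟨M.sort (· ≤ ·), Multiset.sort_eq _ _, Multiset.pairwise_sort _ _⟩
  have hne : l ≠ [] := List.ne_nil_of_mem hn
  have h1 : l.head hne = n := le_antisymm (by
    obtain ⟨a, t, rfl⟩ := List.exists_cons_of_ne_nil hne
    rcases List.mem_cons.1 hn with h | h
    · exact h.ge
    · exact (List.pairwise_cons.1 hs).1 _ h) (h _ (List.head_mem hne)).1
  have : 2 * n ≤ l.getLast hne := hl.2 ⟨l, hs, ⟨R, by simpa using hp⟩, by simpa using hc,
    by rw [List.head?_eq_some_head hne, h1], List.getLast?_eq_some_getLast hne⟩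
  exact absurd (h _ (List.getLast_mem hne)).2 (not_lt.2 this)

lemma four : 8 ∉ ends 3 4 := by
  rintro ⟨l, hs, ⟨R, hR⟩, hc, h1, h2⟩
  have hb : ∀ x ∈ l, 4 ≤ x ∧ x ≤ 8 := by
    intro x hx
    constructor
    · obtain ⟨t, rfl⟩ := List.head?_eq_some_iff.1 h1
      rcases List.mem_cons.1 hx with h | h
      · exact h.ge
      · exact (List.pairwise_cons.1 hs).1 _ h
    · obtain ⟨t, rfl⟩ := List.getLast?_eq_some_iff.1 h2
      rcases List.mem_append.1 hx with h | h
      · exact (List.pairwise_append.1 hs).2.2 _ h _ (by simp)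
      · simp at h; omega
  have h3 : l.prod = ∏ x ∈ Finset.Icc 4 8, x ^ l.count x := by
    rw [Finset.prod_list_count]
    refine Finset.prod_subset (fun x hx => by simpa using hb x (by simpa using hx)) fun x _ hx => ?_
    rw [List.count_eq_zero_of_not_mem (by simpa using hx), pow_zero]
  have h4 : 0 < l.count 4 := List.count_pos_iff.2 (List.mem_of_head? h1)
  rw [hR, show Finset.Icc 4 8 = {4, 5, 6, 7, 8} by rfl] at h3
  simp at h3
  have v2 := congrArg (fun x => x.factorization 2) h3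
  have v3 := congrArg (fun x => x.factorization 3) h3
  simp [Nat.factorization_mul, Nat.factorization_pow] at v2 v3
  have f : Nat.factorization 4 2 = 2 ∧ Nat.factorization 5 2 = 0 ∧ Nat.factorization 6 2 = 1 ∧
      Nat.factorization 7 2 = 0 ∧ Nat.factorization 8 2 = 3 ∧ Nat.factorization 4 3 = 0 ∧
      Nat.factorization 5 3 = 0 ∧ Nat.factorization 6 3 = 1 ∧ Nat.factorization 7 3 = 0 ∧
      Nat.factorization 8 3 = 0 := by
    simp only [← Nat.primeFactorsList_count_eq]
    decide +kernel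
  simp only [f] at v2 v3
  have := hc 4
  have := hc 6
  omega

theorem result (m n : ℕ) (hm : 3 ≤ m) (ho : Odd m) (h : IsLeast (ends m n) (2 * n)) :
    n = 0 ∨ n.Prime ∨ (n = 4 ∧ 5 ≤ m) ∨ (m = 3 ∧ n = 6) := by
  by_contra hc
  push Not at hc
  obtain ⟨h0, hp, h4, h6⟩ := hc
  obtain ⟨k, rfl⟩ := ho
  by_cases h1 : n = 1
  · subst h1
    refine mk _ 1 1 {1} (by simp) (by simp) (by simp) (fun x => ?_) h
    rw [Multiset.count_singleton]; split_ifs <;> omega
  by_cases h4' : n = 4
  · obtain rfl : k = 1 := by have := h4 h4'; omega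
    subst h4'
    exact four h.1
  by_cases h6' : n = 6
  · subst h6'
    obtain ⟨j, rfl⟩ : ∃ j, k = j + 2 := ⟨k - 2, by omega⟩
    refine mk _ 6 24 (Multiset.replicate 3 6 + Multiset.replicate (2 * j + 4) 8 +
      Multiset.replicate (j + 1) 9) (by simp) ?_ ?_ (fun x => ?_) h
    · simp only [Multiset.mem_add, Multiset.mem_replicate]; omega
    · simp only [Multiset.prod_add, Multiset.prod_replicate]
      rw [show (9 : ℕ) = 3 ^ 2 by norm_num, ← pow_mul, show (24 : ℕ) = 8 * 3 by norm_num, mul_pow]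
      ring
    · simp only [Multiset.count_add, Multiset.count_replicate]
      split_ifs <;> omega
  obtain ⟨a, b, ha, hab, rfl⟩ : ∃ a b, 2 ≤ a ∧ a ≤ b ∧ n = a * b := by
    obtain ⟨b, hb⟩ := Nat.minFac_dvd n
    refine ⟨n.minFac, b, (Nat.minFac_prime h1).two_le, ?_, hb⟩
    have := Nat.minFac_sq_le_self (Nat.pos_of_ne_zero h0) hp
    exact Nat.le_of_mul_le_mul_left (by rw [← hb, ← sq]; exact this) (Nat.minFac_pos n)
  have hz : (a + 1) * (b + 1) < 2 * (a * b) := by
    rcases ha.eq_or_lt with rfl | ha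
    · omega
    · nlinarith
  obtain ⟨j, rfl⟩ : ∃ j, k = j + 1 := ⟨k - 1, by omega⟩
  rcases hab.eq_or_lt with rfl | hab
  · refine mk _ _ (a * (a + 1)) (Multiset.replicate 1 (a * a) + Multiset.replicate (2 * j + 1)
      (a * (a + 1)) + Multiset.replicate 1 ((a + 1) * (a + 1))) (by simp) ?_ ?_ (fun x => ?_) h
    · simp only [Multiset.mem_add, Multiset.mem_replicate]
      rintro x ((⟨-, rfl⟩ | ⟨-, rfl⟩) | ⟨-, rfl⟩) <;> constructor <;> nlinarith
    · simp only [Multiset.prod_add, Multiset.prod_replicate]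
      generalize a + 1 = c
      ring
    · simp only [Multiset.count_add, Multiset.count_replicate]
      have : a * a < a * (a + 1) ∧ a * (a + 1) < (a + 1) * (a + 1) := by
        constructor <;> nlinarith
      split_ifs <;> omega
  · refine mk _ _ (a * b * ((a + 1) * (b + 1))) (Multiset.replicate 1 (a * b) +
      Multiset.replicate (2 * j + 2) (a * (b + 1)) + Multiset.replicate (2 * j + 2) ((a + 1) * b) +
      Multiset.replicate 1 ((a + 1) * (b + 1))) (by simp) ?_ ?_ (fun x => ?_) h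
    · simp only [Multiset.mem_add, Multiset.mem_replicate]
      rintro x (((⟨-, rfl⟩ | ⟨-, rfl⟩) | ⟨-, rfl⟩) | ⟨-, rfl⟩) <;> constructor <;> nlinarith
    · simp only [Multiset.prod_add, Multiset.prod_replicate]
      generalize a + 1 = c
      generalize b + 1 = d
      ring
    · simp only [Multiset.count_add, Multiset.count_replicate]
      have : a * b < a * (b + 1) ∧ a * (b + 1) < (a + 1) * b ∧ (a + 1) * b < (a + 1) * (b + 1) := by
        refine ⟨?_, ?_, ?_⟩ <;> nlinarith
      split_ifs <;> omega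

end Pool.Agent.Results.MP_c9219e_nt.Odd
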